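import Mathlib

/-! # MP_939ffc_an: the threshold tends to one -/

open MeasureTheory Set Metric Filter Topology
open scoped ENNReal NNReal Pointwise


namespace BM939

/-- PROOF: elementary, the right side grows like `exp (c n ^ 2)`. -/
theorem asym_J {ε : ℝ} (hε : 0 < ε) :
    ∃ N : ℕ, 3 ≤ N ∧ ∀ n : ℕ, N ≤ n → (6 * (n : ℝ)) ^ 2 ≤ (1 + ε) ^ (n * (n - 2)) := by
  obtain ⟨M, hM⟩ := exists_nat_ge (7 / ε)
  refine ⟨M + 38, by omega, fun n hn => ?_⟩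
  have h8 : (8 : ℝ) ≤ (1 + ε) ^ (n - 2) := by
    have h := one_add_mul_le_pow (show (-2 : ℝ) ≤ ε by linarith) (n - 2)
    have hMn : M ≤ n - 2 := by omega
    have h2 : (M : ℝ) ≤ ((n - 2 : ℕ) : ℝ) := by exact_mod_cast hMn
    have h3 : 7 ≤ (M : ℝ) * ε := (div_le_iff₀ hε).mp hM
    have h4 : (M : ℝ) * ε ≤ ((n - 2 : ℕ) : ℝ) * ε := mul_le_mul_of_nonneg_right h2 hε.le
    linarith
  have hn36 : (36 : ℝ) ≤ n := by
    have h : 36 ≤ n := by omega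
    exact_mod_cast h
  have h2n : (n : ℝ) ≤ 2 ^ n := by
    have h : n ≤ 2 ^ n := Nat.lt_two_pow_self.le
    exact_mod_cast h
  calc (6 * (n : ℝ)) ^ 2 = 36 * (n : ℝ) ^ 2 := by ring
    _ ≤ n * (n : ℝ) ^ 2 := mul_le_mul_of_nonneg_right hn36 (sq_nonneg _)
    _ = (n : ℝ) ^ 3 := by ring
    _ ≤ ((2 : ℝ) ^ n) ^ 3 := pow_le_pow_left₀ (Nat.cast_nonneg n) h2n 3
    _ = (8 : ℝ) ^ n := by
      rw [← pow_mul, mul_comm, pow_mul]
      norm_num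
    _ ≤ ((1 + ε) ^ (n - 2)) ^ n := pow_le_pow_left₀ (by norm_num) h8 n
    _ = (1 + ε) ^ (n * (n - 2)) := by rw [← pow_mul, mul_comm]

end BM939
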