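import Pool.Agent.Lib.MP_939ffc_anJ.DefsJ
import Pool.Agent.Lib.MP_939ffc_anD.PolyL

/-! # MP_939ffc_an: the boundary layer of a polyhedron -/

open MeasureTheory Set Metric Filter Topology
open scoped ENNReal NNReal Pointwise
open Pool.Agent.Lib.MP_deb14e_an Pool.Agent.MPdeb14eM

namespace BM939

/-- PROOF: let `x ∈ poly S`, `x ∉ inn S ε`: some `b ∈ S` has `⟨b, x⟩ + ε ‖b‖ ≥ 1` (so `b ≠ 0`). Take `a ∈ S`, `a ≠ 0`,
with `s := (1 - ⟨a, x⟩) / ‖a‖` least; `0 < s ≤ ε`. Then `p := x + (s / ‖a‖) • a` has `⟨a, p⟩ = 1` and `⟨c, p⟩ ≤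
⟨c, x⟩ + s ‖c‖ ≤ 1` for all `c ∈ S`, so `p ∈ facet S a` (see the definition of `facet`). -/
theorem cover {m : ℕ} (S : Finset (E (m + 1))) {ε : ℝ} (hε : 0 < ε) :
    poly S \ inn S ε ⊆ ⋃ a ∈ S, {z : E (m + 1) | ∃ p ∈ facet S a, ∃ s ∈ Icc (0 : ℝ) ε, z = p - s • (‖a‖⁻¹ • a)} := by
  classical
  rintro x ⟨hx, hn⟩
  have hx' : ∀ a ∈ S, (inner ℝ a x : ℝ) < 1 := hx
  have hn' : ¬ ∀ a ∈ S, (inner ℝ a x : ℝ) + ε * ‖a‖ < 1 := hn
  push Not at hn'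
  obtain ⟨b, hbS, hb⟩ := hn'
  have hb0 : b ≠ 0 := by
    rintro rfl
    rw [inner_zero_left, norm_zero, mul_zero, add_zero] at hb
    linarith
  obtain ⟨a, haT, hmin⟩ := (S.filter (fun c => c ≠ 0)).exists_min_image
    (fun c => (1 - (inner ℝ c x : ℝ)) / ‖c‖) ⟨b, Finset.mem_filter.mpr ⟨hbS, hb0⟩⟩
  obtain ⟨haS, ha0⟩ := Finset.mem_filter.mp haT
  have hna : 0 < ‖a‖ := norm_pos_iff.mpr ha0
  have hnb : 0 < ‖b‖ := norm_pos_iff.mpr hb0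
  obtain ⟨s, hs⟩ : ∃ s : ℝ, s = (1 - (inner ℝ a x : ℝ)) / ‖a‖ := ⟨_, rfl⟩
  have hs0 : 0 < s := by
    rw [hs]
    exact div_pos (by linarith [hx' a haS]) hna
  have hsa : s * ‖a‖ = 1 - (inner ℝ a x : ℝ) := by
    rw [hs, div_mul_cancel₀ _ hna.ne']
  have hsc : ∀ c ∈ S, c ≠ 0 → s * ‖c‖ ≤ 1 - (inner ℝ c x : ℝ) := by
    intro c hc hc0
    have h1 := hmin c (Finset.mem_filter.mpr ⟨hc, hc0⟩)
    have hnc : 0 < ‖c‖ := norm_pos_iff.mpr hc0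
    have h2 : s ≤ (1 - (inner ℝ c x : ℝ)) / ‖c‖ := by
      rw [hs]
      exact h1
    rwa [le_div_iff₀ hnc] at h2
  have hsε : s ≤ ε := by
    have h1 := hsc b hbS hb0
    have h2 : s * ‖b‖ ≤ ε * ‖b‖ := by linarith
    exact le_of_mul_le_mul_right h2 hnb
  refine mem_iUnion₂.mpr ⟨a, haS, ?_⟩
  refine ⟨x + s • (‖a‖⁻¹ • a), ⟨?_, ?_⟩, s, ⟨hs0.le, hsε⟩, ?_⟩
  · rw [inner_add_right, inner_smul_right, inner_smul_right, real_inner_self_eq_norm_sq]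
    have e : s * (‖a‖⁻¹ * ‖a‖ ^ 2) = s * ‖a‖ := by
      field_simp
    rw [e, hsa]
    ring
  · intro c hc
    by_cases hc0 : c = 0
    · rw [hc0, inner_zero_left]
      exact zero_le_one
    · rw [inner_add_right, inner_smul_right, inner_smul_right]
      have h1 : (inner ℝ c a : ℝ) ≤ ‖c‖ * ‖a‖ := real_inner_le_norm c a
      have h2 : ‖a‖⁻¹ * (inner ℝ c a : ℝ) ≤ ‖c‖ := by
        rw [inv_mul_le_iff₀ hna]
        linarith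
      have h3 : s * (‖a‖⁻¹ * (inner ℝ c a : ℝ)) ≤ s * ‖c‖ := mul_le_mul_of_nonneg_left h2 hs0.le
      have h4 := hsc c hc hc0
      linarith
  · rw [add_sub_cancel_right]

end BM939
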