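import Pool.Agent.Lib.MP_939ffc_anG.Main8

/-! # MP_939ffc_an: slices and inner parallel polyhedra -/

open MeasureTheory Set Metric Filter Topology
open scoped ENNReal NNReal Pointwise
open Pool.Agent.Lib.MP_deb14e_an Pool.Agent.MPdeb14eM

namespace BM939

/-- The slice of `L` at the value `s` of the coordinate `0`. -/
def slc {m : ℕ} (L : Set (E (m + 1))) (s : ℝ) : Set (E m) := {y | cons s y ∈ L}

/-- The inner parallel polyhedron. -/
def inn {n : ℕ} (S : Finset (E n)) (ε : ℝ) : Set (E n) := {x | ∀ a ∈ S, (inner ℝ a x : ℝ) + ε * ‖a‖ < 1}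

end BM939
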