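import Mathlib

/-! # MP_939ffc_an: an elementary inequality -/

open MeasureTheory Set Metric Filter Topology
open scoped ENNReal NNReal Pointwise


namespace BM939

/-- PROOF: `(1 + 1 / m) ^ m ≤ exp 1 < 3`. -/
theorem exp_J {m : ℕ} (hm : 1 ≤ m) : (((m : ℝ) + 1) / m) ^ m ≤ 3 := by
  have hm0 : (0 : ℝ) < m := by exact_mod_cast hm
  have h1 : ((m : ℝ) + 1) / m ≤ Real.exp (1 / m) := by
    have h := Real.add_one_le_exp (1 / (m : ℝ))
    have h2 : ((m : ℝ) + 1) / m = 1 / m + 1 := by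
      field_simp
      ring
    rw [h2]
    exact h
  have h3 : (0 : ℝ) ≤ ((m : ℝ) + 1) / m := by positivity
  have h4 : (((m : ℝ) + 1) / m) ^ m ≤ Real.exp (1 / m) ^ m := pow_le_pow_left₀ h3 h1 m
  have h5 : Real.exp (1 / (m : ℝ)) ^ m = Real.exp 1 := by
    rw [← Real.exp_nat_mul]
    congr 1
    field_simp
  rw [h5] at h4
  have h6 : Real.exp 1 < 2.7182818286 := Real.exp_one_lt_d9
  linarith

end BM939
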