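import Pool.Agent.Lib.MP_939ffc_anJ.PolyLong
import Pool.Agent.Lib.MP_939ffc_anC.Approx
import Pool.Agent.Lib.MP_939ffc_anH.WidthC

/-! # MP_939ffc_an: long convex sets have a large perimeter -/

open MeasureTheory Set Metric Filter Topology
open scoped ENNReal NNReal Pointwise
open Pool.Agent.Lib.MP_deb14e_an Pool.Agent.MPdeb14eM

namespace BM939

private theorem long_sep {n : ℕ} {Ω : Set (E n)} (hΩ : ConvexDomain Ω) (h0 : (0 : E n) ∈ Ω)
    {x : E n} (hx : x ∈ frontier Ω) :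
    ∃ a : E n, (∀ y ∈ Ω, (inner ℝ a y : ℝ) < 1) ∧ 1 ≤ (inner ℝ a x : ℝ) := by
  have hxn : x ∉ Ω := by
    intro h
    rw [hΩ.2.2.1.frontier_eq] at hx
    exact hx.2 h
  obtain ⟨f, hf⟩ := geometric_hahn_banach_open_point hΩ.2.2.2 hΩ.2.2.1 hxn
  have hfx : 0 < f x := by
    have := hf 0 h0
    rwa [map_zero] at this
  have hin : ∀ y : E n, (inner ℝ ((f x)⁻¹ • (InnerProductSpace.toDual ℝ (E n)).symm f) y : ℝ) =
      (f x)⁻¹ * f y := by
    intro y
    rw [real_inner_smul_left, InnerProductSpace.toDual_symm_apply]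
  refine ⟨(f x)⁻¹ • (InnerProductSpace.toDual ℝ (E n)).symm f, fun y hy => ?_, ?_⟩
  · rw [hin, inv_mul_lt_iff₀ hfx, mul_one]
    exact hf y hy
  · rw [hin, inv_mul_cancel₀ hfx.ne']

private theorem long_vb_pos (d : ℕ) : 0 < vb d := by
  unfold vb
  refine ENNReal.toReal_pos (measure_ball_pos _ _ one_pos).ne' measure_ball_lt_top.ne

/-- The inequality for the first coordinate. -/
private theorem long_zero {m : ℕ} (hm : 2 ≤ m) {Ω : Set (E (m + 1))} (hΩ : ConvexDomain Ω)
    (h0 : (0 : E (m + 1)) ∈ Ω) {x : E (m + 1)} (hx : x ∈ Ω) (hx0 : 0 < x 0) :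
    (m : ℝ) ^ m * vb m * (volume Ω).toReal ^ (m - 1) * x 0 / (m + 1) ≤
      (perimeter (m + 1) Ω / (hausdorffConst m * kap m)) ^ m := by
  have hvb := long_vb_pos m
  have hk := kap_pos m
  have hc : 0 < hausdorffConst (m : ℝ) := hausdorffConst_pos (Nat.cast_nonneg m)
  have hP := perimeter_pos hΩ
  set Q : ℝ := perimeter (m + 1) Ω / (hausdorffConst m * kap m) with hQ
  have hQ0 : 0 < Q := by positivity
  have key : ∀ ε : ℝ, 0 < ε →
      (m : ℝ) ^ m * vb m * (volume Ω).toReal ^ (m - 1) * x 0 / (m + 1) ≤ ((1 + ε) ^ m * Q) ^ m := by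
    intro ε hε
    have hc1 : (0 : ℝ) < 1 + ε := by linarith
    obtain ⟨S, -, hS1, hS2⟩ := exists_poly hΩ h0 (A := {a | ∀ y ∈ Ω, (inner ℝ a y : ℝ) < 1})
      (fun a ha => ha) (fun x hx => long_sep hΩ h0 hx) hε
    have hΩ2 : ConvexDomain ((1 + ε) • Ω) :=
      ⟨hΩ.1.smul_set, hΩ.2.1.smul₀ (1 + ε), hΩ.2.2.1.smul₀ hc1.ne', hΩ.2.2.2.smul (1 + ε)⟩
    have hpoly : ConvexDomain (poly S) :=
      ⟨⟨0, zero_mem_poly S⟩, hΩ2.2.1.subset hS2, isOpen_poly S, convex_poly S⟩
    have h1 := poly_long hm hpoly.2.1 (hS1 hx) hx0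
    have h2 : (volume Ω).toReal ≤ (volume (poly S)).toReal :=
      ENNReal.toReal_mono hpoly.2.1.measure_lt_top.ne (measure_mono hS1)
    have h3 : perimeter (m + 1) (poly S) ≤ (1 + ε) ^ m * perimeter (m + 1) Ω := by
      have h4 := perimeter_mono hpoly hΩ2 hS2
      have h5 : (1 + ε) • Ω = sim (LinearIsometryEquiv.refl ℝ (E (m + 1))) 0 (1 + ε) '' Ω := by
        ext y
        constructor
        · rintro ⟨z, hz, rfl⟩
          refine ⟨z, hz, ?_⟩
          show (0 : E (m + 1)) + (1 + ε) • z = (1 + ε) • z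
          rw [zero_add]
        · rintro ⟨z, hz, rfl⟩
          refine ⟨z, hz, ?_⟩
          show (1 + ε) • z = (0 : E (m + 1)) + (1 + ε) • z
          rw [zero_add]
      rw [h5, perimeter_sim _ _ hc1] at h4
      exact h4
    have h6 : (Measure.hausdorffMeasure (m : ℝ) (frontier (poly S))).toReal / kap m =
        perimeter (m + 1) (poly S) / (hausdorffConst m * kap m) := by
      rw [perimeter_eq]
      field_simp
    have h7 : perimeter (m + 1) (poly S) / (hausdorffConst m * kap m) ≤ (1 + ε) ^ m * Q := by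
      rw [hQ, mul_div_assoc']
      exact div_le_div_of_nonneg_right h3 (by positivity)
    rw [h6] at h1
    have h8 : 0 ≤ perimeter (m + 1) (poly S) / (hausdorffConst m * kap m) := by
      have := perimeter_pos hpoly
      positivity
    calc (m : ℝ) ^ m * vb m * (volume Ω).toReal ^ (m - 1) * x 0 / (m + 1)
        ≤ (m : ℝ) ^ m * vb m * (volume (poly S)).toReal ^ (m - 1) * x 0 / (m + 1) := by
          gcongr
      _ ≤ _ := h1
      _ ≤ _ := pow_le_pow_left₀ h8 h7 m
  have hlim : Tendsto (fun k : ℕ => ((1 + 1 / ((k : ℝ) + 1)) ^ m * Q) ^ m) atTop (𝓝 (Q ^ m)) := by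
    have h3 := (tendsto_one_div_add_atTop_nhds_zero_nat (𝕜 := ℝ)).const_add 1
    have h4 := ((h3.pow m).mul_const Q).pow m
    rwa [add_zero, one_pow, one_mul] at h4
  exact ge_of_tendsto hlim (Eventually.of_forall fun k => key _ (by positivity))

/-- PROOF: rotate so that `x 0 = ‖x‖` (as in WidthC.lean), then `poly_long` for `Ω ⊆ poly S ⊆ (1 + δ) • Ω`
(`exists_poly`), `perimeter_mono`, scaling of the perimeter, `δ → 0`. -/
theorem long {m : ℕ} (hm : 2 ≤ m) {Ω : Set (E (m + 1))} (hΩ : ConvexDomain Ω) (h0 : (0 : E (m + 1)) ∈ Ω)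
    {x : E (m + 1)} (hx : x ∈ Ω) :
    (m : ℝ) ^ m * vb m * (volume Ω).toReal ^ (m - 1) * ‖x‖ / (m + 1) ≤
      (perimeter (m + 1) Ω / (hausdorffConst m * kap m)) ^ m := by
  have hk := kap_pos m
  have hc : 0 < hausdorffConst (m : ℝ) := hausdorffConst_pos (Nat.cast_nonneg m)
  have hP0 := perimeter_pos hΩ
  rcases eq_or_ne x 0 with hx0 | hx0
  · rw [hx0, norm_zero, mul_zero, zero_div]
    positivity
  have hn : 0 < ‖x‖ := norm_pos_iff.2 hx0
  set u : E (m + 1) := ‖x‖⁻¹ • x with hu'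
  have hu : ‖u‖ = 1 := by
    rw [hu', norm_smul, norm_inv, norm_norm, inv_mul_cancel₀ hn.ne']
  set v : E (m + 1) := EuclideanSpace.single (0 : Fin (m + 1)) (1 : ℝ) with hv
  have hv1 : ‖v‖ = 1 := by rw [hv]; simp
  set e : E (m + 1) ≃ₗᵢ[ℝ] E (m + 1) := (ℝ ∙ (u - v))ᗮ.reflection with he
  have heu : e u = v := Submodule.reflection_sub (hu.trans hv1.symm)
  have h0' : (e x) 0 = ‖x‖ := by
    have h1 : (e x) 0 = inner ℝ u x := by
      rw [← e.inner_map_map u x, heu, hv, EuclideanSpace.inner_single_left]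
      simp
    rw [h1, hu', real_inner_smul_left, real_inner_self_eq_norm_sq]
    field_simp
  have hs : ∀ A : Set (E (m + 1)), e '' A = sim e 0 1 '' A := by
    intro A
    congr 1
    ext1 x
    change e x = 0 + (1 : ℝ) • e x
    rw [one_smul, zero_add]
  have hD : ConvexDomain (e '' Ω) := by
    rw [hs]
    exact convexDomain_sim e 0 one_pos hΩ
  have hP : perimeter (m + 1) (e '' Ω) = perimeter (m + 1) Ω := by
    rw [hs, perimeter_sim _ _ one_pos, one_pow, one_mul]
  have hV : volume (e '' Ω) = volume Ω := by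
    have h1 : e '' Ω = e.symm ⁻¹' Ω := by
      ext x
      rw [Set.mem_preimage]
      exact ⟨fun ⟨y, hy, hyx⟩ => by rw [← hyx, e.symm_apply_apply]; exact hy,
        fun h => ⟨e.symm x, h, e.apply_symm_apply x⟩⟩
    rw [h1]
    exact e.symm.measurePreserving.measure_preimage hΩ.2.2.1.measurableSet.nullMeasurableSet
  have key := long_zero hm hD ⟨0, h0, map_zero e⟩ (Set.mem_image_of_mem e hx) (by rw [h0']; exact hn)
  rwa [hP, hV, h0'] at key

end BM939
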