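import Pool.Agent.Lib.MP_939ffc_anJ.Prism
import Pool.Agent.Lib.MP_939ffc_anJ.Cover

/-! # MP_939ffc_an: the volume of the boundary layer -/

open MeasureTheory Set Metric Filter Topology
open scoped ENNReal NNReal Pointwise
open Pool.Agent.Lib.MP_deb14e_an Pool.Agent.MPdeb14eM

namespace BM939

private theorem parallel_facet_zero {n : ℕ} (S : Finset (E n)) : facet S (0 : E n) = ∅ := by
  ext x
  simp only [mem_empty_iff_false, iff_false]
  rintro ⟨h, -⟩
  rw [inner_zero_left] at h
  exact zero_ne_one h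

private theorem parallel_sum {m : ℕ} (S : Finset (E (m + 1))) :
    ∑ a ∈ S, (Measure.hausdorffMeasure (m : ℝ) : Measure (E (m + 1))) (facet S a) ≤
      Measure.hausdorffMeasure (m : ℝ) (frontier (poly S)) := by
  have hdisj : Set.Pairwise (↑S : Set (E (m + 1))) (Function.onFun (AEDisjoint
      (Measure.hausdorffMeasure (m : ℝ) : Measure (E (m + 1)))) (fun a => facet S a)) := by
    intro a ha b hb' hab
    by_cases ha0 : a = 0
    · subst ha0
      show (Measure.hausdorffMeasure (m : ℝ) : Measure (E (m + 1))) (facet S 0 ∩ facet S b) = 0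
      rw [parallel_facet_zero, empty_inter, measure_empty]
    · exact facet_inter_null' ha0 hab
  have hmeas : ∀ a ∈ S, NullMeasurableSet (facet S a)
      (Measure.hausdorffMeasure (m : ℝ) : Measure (E (m + 1))) := fun a _ =>
    (isClosed_facet S a).measurableSet.nullMeasurableSet
  rw [← measure_biUnion_finset₀ hdisj hmeas]
  exact measure_mono (Set.iUnion₂_subset fun a ha => facet_subset_frontier ha)

private theorem parallel_one {m : ℕ} (S : Finset (E (m + 1))) {ε : ℝ} (hε : 0 < ε)
    (a : E (m + 1)) :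
    volume {z : E (m + 1) | ∃ p ∈ facet S a, ∃ s ∈ Icc (0 : ℝ) ε, z = p - s • (‖a‖⁻¹ • a)} ≤
      ENNReal.ofReal (ε / kap m) * Measure.hausdorffMeasure (m : ℝ) (facet S a) := by
  by_cases ha0 : a = 0
  · subst ha0
    have h : {z : E (m + 1) | ∃ p ∈ facet S (0 : E (m + 1)), ∃ s ∈ Icc (0 : ℝ) ε,
        z = p - s • (‖(0 : E (m + 1))‖⁻¹ • (0 : E (m + 1)))} = ∅ := by
      ext z
      simp only [mem_ofPred_eq, mem_empty_iff_false, iff_false]
      rintro ⟨p, hp, -⟩
      rw [parallel_facet_zero] at hp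
      exact hp
    rw [h, measure_empty]
    exact zero_le
  · have hn : 0 < ‖a‖ := norm_pos_iff.2 ha0
    have hu : ‖(‖a‖⁻¹ : ℝ) • a‖ = 1 := by
      rw [norm_smul, norm_inv, norm_norm, inv_mul_cancel₀ hn.ne']
    exact prism hu hε (isClosed_facet S a) (h := ‖a‖⁻¹)
      (fun x hx => by rw [real_inner_smul_left, hx.1, mul_one])

/-- PROOF: `cover`, `prism` for each facet (for `a = 0` the facet is empty; `⟨‖a‖⁻¹ • a, x⟩ = ‖a‖⁻¹` on the facet) and
`∑ μH[m] (facet S a) ≤ μH[m] (frontier (poly S))` (the facets are a.e. disjoint subsets of the frontier, as in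
PolyL.lean, `sum_le_bd_poly`). -/
theorem parallel {m : ℕ} (S : Finset (E (m + 1))) {ε : ℝ} (hε : 0 < ε) :
    volume (poly S) ≤ volume (inn S ε) +
      ENNReal.ofReal (ε / kap m) * Measure.hausdorffMeasure (m : ℝ) (frontier (poly S)) := by
  have h1 : volume (poly S) ≤ volume (inn S ε) + volume (poly S \ inn S ε) := by
    refine le_trans (measure_mono ?_) (measure_union_le (inn S ε) (poly S \ inn S ε))
    intro x hx
    by_cases h : x ∈ inn S ε
    · exact Or.inl h
    · exact Or.inr ⟨hx, h⟩
  refine h1.trans (add_le_add le_rfl ?_)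
  refine le_trans (measure_mono (cover S hε)) ?_
  refine le_trans (measure_biUnion_finset_le S _) ?_
  refine le_trans (Finset.sum_le_sum fun a _ => parallel_one S hε a) ?_
  rw [← Finset.mul_sum]
  exact mul_le_mul_right (parallel_sum S) _

end BM939
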