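import Pool.Agent.Lib.MP_939ffc_anJ.DefsJ

/-! # MP_939ffc_an: Fubini for slices -/

open MeasureTheory Set Metric Filter Topology
open scoped ENNReal NNReal Pointwise
open Pool.Agent.Lib.MP_deb14e_an Pool.Agent.MPdeb14eM

namespace BM939

/-- PROOF: Fubini, the map `(s, y) ↦ cons s y` preserves the volume (see Fib.lean, WidthA.lean). -/
theorem vol_slc {m : ℕ} {L : Set (E (m + 1))} (hL : MeasurableSet L) :
    volume L = ∫⁻ s, volume (slc L s) := by
  have hm : MeasurableSet ((fun p : ℝ × E m => cons p.1 p.2) ⁻¹' L) :=
    (measurePreserving_cons (d := m)).measurable hL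
  rw [← (measurePreserving_cons (d := m)).measure_preimage hL.nullMeasurableSet,
    Measure.prod_apply hm]
  rfl

theorem measurable_slc {m : ℕ} {L : Set (E (m + 1))} (hL : MeasurableSet L) :
    Measurable fun s => volume (slc L s) := by
  have hm : MeasurableSet ((fun p : ℝ × E m => cons p.1 p.2) ⁻¹' L) :=
    (measurePreserving_cons (d := m)).measurable hL
  exact measurable_measure_prodMk_left (ν := (volume : Measure (E m))) hm

end BM939
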