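import Pool.Agent.Lib.MP_939ffc_anJ.DefsJ
import Pool.Agent.Lib.MP_939ffc_anJ.SliceVol

/-! # MP_939ffc_an: a slice is at most volume over length -/

open MeasureTheory Set Metric Filter Topology
open scoped ENNReal NNReal Pointwise
open Pool.Agent.Lib.MP_deb14e_an Pool.Agent.MPdeb14eM

namespace BM939

private theorem SliceCone_pt {m : ℕ} {L : Set (E (m + 1))} (hL : Convex ℝ L) {p : E (m + 1)}
    (hp : p ∈ L) {s l : ℝ} (h0 : 0 ≤ l) (h1 : l ≤ 1) :
    ENNReal.ofReal (l ^ m) * volume (slc L s) ≤ volume (slc L ((1 - l) * p 0 + l * s)) := by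
  have h2 : ((1 - l) • tl p) +ᵥ (l • slc L s) ⊆ slc L ((1 - l) * p 0 + l * s) := by
    rintro _ ⟨_, ⟨y, hy, rfl⟩, rfl⟩
    show cons ((1 - l) * p 0 + l * s) ((1 - l) • tl p + l • y) ∈ L
    rw [cons_add, cons_smul, cons_smul, cons_tl]
    exact hL hp hy (by linarith) h0 (by ring)
  have h3 := measure_mono (μ := (volume : Measure (E m))) h2
  rw [measure_vadd, Measure.addHaar_smul, finrank_euclideanSpace_fin,
    abs_of_nonneg (pow_nonneg h0 m)] at h3
  exact h3

private theorem SliceCone_int1 (k : ℕ) {a b : ℝ} (hab : a < b) :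
    ∫⁻ z in Ioo a b, ENNReal.ofReal (((z - a) / (b - a)) ^ k) =
      ENNReal.ofReal ((b - a) / (k + 1)) := by
  have hba : 0 < b - a := by linarith
  rw [← ofReal_integral_eq_lintegral_ofReal]
  · congr 1
    rw [← integral_Ioc_eq_integral_Ioo, ← intervalIntegral.integral_of_le hab.le,
      intervalIntegral.integral_comp_sub_right (fun z => (z / (b - a)) ^ k) a, sub_self]
    have h1 : ∀ z : ℝ, (z / (b - a)) ^ k = z ^ k / (b - a) ^ k := fun z => div_pow z (b - a) k
    simp only [h1]
    rw [intervalIntegral.integral_div, integral_pow]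
    field_simp
    ring
  · have hc : Continuous fun z : ℝ => ((z - a) / (b - a)) ^ k := by fun_prop
    exact (hc.continuousOn.integrableOn_Icc).mono_set Ioo_subset_Icc_self
  · filter_upwards [ae_restrict_mem measurableSet_Ioo] with z hz
    have := hz.1
    exact pow_nonneg (div_nonneg (by linarith) hba.le) k

private theorem SliceCone_int2 (k : ℕ) {a b : ℝ} (hab : a < b) :
    ∫⁻ z in Ioo a b, ENNReal.ofReal (((b - z) / (b - a)) ^ k) =
      ENNReal.ofReal ((b - a) / (k + 1)) := by
  have hba : 0 < b - a := by linarith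
  rw [← ofReal_integral_eq_lintegral_ofReal]
  · congr 1
    rw [← integral_Ioc_eq_integral_Ioo, ← intervalIntegral.integral_of_le hab.le,
      intervalIntegral.integral_comp_sub_left (fun z => (z / (b - a)) ^ k) b, sub_self]
    have h1 : ∀ z : ℝ, (z / (b - a)) ^ k = z ^ k / (b - a) ^ k := fun z => div_pow z (b - a) k
    simp only [h1]
    rw [intervalIntegral.integral_div, integral_pow]
    field_simp
    ring
  · have hc : Continuous fun z : ℝ => ((b - z) / (b - a)) ^ k := by fun_prop
    exact (hc.continuousOn.integrableOn_Icc).mono_set Ioo_subset_Icc_self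
  · filter_upwards [ae_restrict_mem measurableSet_Ioo] with z hz
    have := hz.2
    exact pow_nonneg (div_nonneg (by linarith) hba.le) k

private theorem SliceCone_left {m : ℕ} {L : Set (E (m + 1))} (hL : Convex ℝ L) {p : E (m + 1)}
    (hp : p ∈ L) {s : ℝ} (hs : p 0 < s) :
    ENNReal.ofReal ((s - p 0) / (m + 1)) * volume (slc L s) ≤
      ∫⁻ z in Ioo (p 0) s, volume (slc L z) := by
  have hsp : 0 < s - p 0 := by linarith
  rw [← SliceCone_int1 m hs]
  have hm : Measurable fun z : ℝ => ENNReal.ofReal (((z - p 0) / (s - p 0)) ^ m) := by fun_prop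
  rw [← lintegral_mul_const _ hm]
  refine setLIntegral_mono' measurableSet_Ioo fun z hz => ?_
  have h1 := SliceCone_pt hL hp (s := s) (l := (z - p 0) / (s - p 0))
    (div_nonneg (by linarith [hz.1]) hsp.le) ((div_le_one hsp).2 (by linarith [hz.2]))
  have h2 : (1 - (z - p 0) / (s - p 0)) * p 0 + (z - p 0) / (s - p 0) * s = z := by
    field_simp
    ring
  rw [h2] at h1
  exact h1

private theorem SliceCone_right {m : ℕ} {L : Set (E (m + 1))} (hL : Convex ℝ L) {p : E (m + 1)}
    (hp : p ∈ L) {s : ℝ} (hs : s < p 0) :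
    ENNReal.ofReal ((p 0 - s) / (m + 1)) * volume (slc L s) ≤
      ∫⁻ z in Ioo s (p 0), volume (slc L z) := by
  have hsp : 0 < p 0 - s := by linarith
  rw [← SliceCone_int2 m hs]
  have hm : Measurable fun z : ℝ => ENNReal.ofReal (((p 0 - z) / (p 0 - s)) ^ m) := by fun_prop
  rw [← lintegral_mul_const _ hm]
  refine setLIntegral_mono' measurableSet_Ioo fun z hz => ?_
  have h1 := SliceCone_pt hL hp (s := s) (l := (p 0 - z) / (p 0 - s))
    (div_nonneg (by linarith [hz.2]) hsp.le) ((div_le_one hsp).2 (by linarith [hz.1]))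
  have h2 : (1 - (p 0 - z) / (p 0 - s)) * p 0 + (p 0 - z) / (p 0 - s) * s = z := by
    field_simp
    ring
  rw [h2] at h1
  exact h1

/-- PROOF: the cones over the slice with apex `x` and with apex `z` are contained in `L`: for `s'` between `x 0` and
`s`, `slc L s' ⊇ (1 - l) • tl x + l • slc L s`, `l = (s' - x 0) / (s - x 0)`, so `|L_s'| ≥ l ^ m |L_s|`; the same from
`z`. Integrate (`vol_slc`): if `x 0 < s < z 0` the two cones give `(s - x 0) / (m+1) + (z 0 - s) / (m+1)`; if
`s ≥ z 0` the cone with apex `x` is enough, if `s ≤ x 0` the one with apex `z`. -/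
theorem slice_cone {m : ℕ} {L : Set (E (m + 1))} (hL : ConvexDomain L) {x z : E (m + 1)} (hx : x ∈ L) (hz : z ∈ L)
    (hD : 0 < z 0 - x 0) (s : ℝ) :
    (z 0 - x 0) * (volume (slc L s)).toReal ≤ ((m : ℝ) + 1) * (volume L).toReal := by
  obtain ⟨_, hbd, hop, hcv⟩ := hL
  have hfin : volume L ≠ ∞ := hbd.measure_lt_top.ne
  have hV := vol_slc hop.measurableSet
  have hm1 : (0 : ℝ) < (m : ℝ) + 1 := by positivity
  have key : ENNReal.ofReal ((z 0 - x 0) / (m + 1)) * volume (slc L s) ≤ volume L := by
    rw [hV]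
    by_cases h1 : s ≤ x 0
    · have h2 : s < z 0 := by linarith
      refine le_trans (mul_le_mul_left (ENNReal.ofReal_le_ofReal ?_) _)
        ((SliceCone_right hcv hz h2).trans (setLIntegral_le_lintegral _ _))
      exact div_le_div_of_nonneg_right (by linarith) hm1.le
    · rw [not_le] at h1
      by_cases h2 : z 0 ≤ s
      · refine le_trans (mul_le_mul_left (ENNReal.ofReal_le_ofReal ?_) _)
          ((SliceCone_left hcv hx h1).trans (setLIntegral_le_lintegral _ _))
        exact div_le_div_of_nonneg_right (by linarith) hm1.le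
      · rw [not_le] at h2
        have h3 : (z 0 - x 0) / ((m : ℝ) + 1) =
            (s - x 0) / ((m : ℝ) + 1) + (z 0 - s) / ((m : ℝ) + 1) := by ring
        rw [h3, ENNReal.ofReal_add (div_nonneg (by linarith) hm1.le)
          (div_nonneg (by linarith) hm1.le), add_mul]
        refine (add_le_add (SliceCone_left hcv hx h1) (SliceCone_right hcv hz h2)).trans ?_
        have h4 : Disjoint (Ioo (x 0) s) (Ioo s (z 0)) := by
          rw [Set.disjoint_left]
          intro t ht ht'
          exact absurd (ht.2.trans ht'.1) (lt_irrefl _)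
        rw [← lintegral_union measurableSet_Ioo h4]
        exact setLIntegral_le_lintegral _ _
  have h5 := ENNReal.toReal_mono hfin key
  rw [ENNReal.toReal_mul, ENNReal.toReal_ofReal (div_nonneg hD.le hm1.le), div_mul_eq_mul_div,
    div_le_iff₀ hm1] at h5
  linarith

end BM939
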