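import Pool.Agent.Lib.MP_939ffc_anJ.SliceBM
import Pool.Agent.Lib.MP_939ffc_anJ.SliceCone

/-! # MP_939ffc_an: integration over the slices -/

open MeasureTheory Set Metric Filter Topology
open scoped ENNReal NNReal Pointwise
open Pool.Agent.Lib.MP_deb14e_an Pool.Agent.MPdeb14eM

namespace BM939

private theorem SliceMain_fin {m : ℕ} {L : Set (E (m + 1))} (hL : ConvexDomain L) (s : ℝ) :
    volume (slc L s) ≠ ⊤ := by
  obtain ⟨R, hR⟩ := hL.2.1.exists_norm_le
  have hsub : slc L s ⊆ closedBall (0 : E m) R := by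
    intro y hy
    rw [mem_closedBall_zero_iff]
    have h1 := norm_tl_le (cons s y)
    rw [tl_cons] at h1
    exact h1.trans (hR _ hy)
  exact ((measure_mono hsub).trans_lt measure_closedBall_lt_top).ne

private theorem SliceMain_pow {m : ℕ} (hm : 2 ≤ m) {a M : ℝ} (ha : 0 ≤ a) (haM : a ≤ M) :
    a * M ^ (-(1 / (m : ℝ))) ≤ a ^ (((m : ℝ) - 1) / m) := by
  have hm2 : (2 : ℝ) ≤ m := by exact_mod_cast hm
  rcases eq_or_lt_of_le ha with h0 | h0
  · rw [← h0, zero_mul]
    exact Real.rpow_nonneg le_rfl _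
  · have h1 : ((m : ℝ) - 1) / m = 1 + -(1 / (m : ℝ)) := by
      field_simp
      ring
    rw [h1, Real.rpow_add h0, Real.rpow_one]
    refine mul_le_mul_of_nonneg_left ?_ ha
    refine Real.rpow_le_rpow_of_nonpos h0 haM ?_
    have : 0 ≤ 1 / (m : ℝ) := by positivity
    linarith

/-- PROOF: integrate `slice_bm` over `s` (`vol_slc`); `|L_s|^((m-1)/m) = |L_s| |L_s|^(-1/m) ≥ |L_s| M^(-1/m)` with
`M = (m + 1) |L| / (z 0 - x 0)` by `slice_cone`. -/
theorem slice_main {m : ℕ} (hm : 2 ≤ m) {K L : Set (E (m + 1))} (hK : ConvexDomain K) (hL : ConvexDomain L)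
    {ε : ℝ} (hε : 0 < ε) (h : ∀ x ∈ L, ball x ε ⊆ K) {x z : E (m + 1)} (hx : x ∈ L) (hz : z ∈ L)
    (hD : 0 < z 0 - x 0) :
    m * ε * vb m ^ (1 / (m : ℝ)) * ((volume L).toReal *
        (((m : ℝ) + 1) * (volume L).toReal / (z 0 - x 0)) ^ (-(1 / (m : ℝ)))) ≤
      (volume K).toReal - (volume L).toReal := by
  have hV : 0 < (volume L).toReal :=
    ENNReal.toReal_pos (hL.2.2.1.measure_pos volume ⟨x, hx⟩).ne' (hL.2.1.measure_lt_top).ne
  have hKfin : volume K ≠ ⊤ := (hK.2.1.measure_lt_top).ne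
  have hvb : 0 ≤ vb m ^ (1 / (m : ℝ)) := Real.rpow_nonneg (vb_pos m).le _
  set V : ℝ := (volume L).toReal with hVdef
  set M : ℝ := ((m : ℝ) + 1) * V / (z 0 - x 0) with hMdef
  have hM : 0 < M := by positivity
  set c : ℝ := m * ε * vb m ^ (1 / (m : ℝ)) with hcdef
  have hc : 0 ≤ c := by positivity
  have hMp : 0 ≤ M ^ (-(1 / (m : ℝ))) := Real.rpow_nonneg hM.le _
  have hq : 0 ≤ 1 + c * M ^ (-(1 / (m : ℝ))) := by positivity
  have key : ∀ s : ℝ, ENNReal.ofReal (1 + c * M ^ (-(1 / (m : ℝ)))) * volume (slc L s) ≤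
      volume (slc K s) := by
    intro s
    have h1 := slice_bm hm hK hL hε h s
    have h2 := slice_cone hL hx hz hD s
    have ha : 0 ≤ (volume (slc L s)).toReal := ENNReal.toReal_nonneg
    have haM : (volume (slc L s)).toReal ≤ M := by
      rw [hMdef, le_div_iff₀ hD]
      linarith
    have h3 := SliceMain_pow hm ha haM
    have h4 : (1 + c * M ^ (-(1 / (m : ℝ)))) * (volume (slc L s)).toReal ≤
        (volume (slc K s)).toReal := by
      have h5 := mul_le_mul_of_nonneg_left h3 hc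
      nlinarith
    calc ENNReal.ofReal (1 + c * M ^ (-(1 / (m : ℝ)))) * volume (slc L s)
        = ENNReal.ofReal (1 + c * M ^ (-(1 / (m : ℝ)))) *
            ENNReal.ofReal (volume (slc L s)).toReal := by
          rw [ENNReal.ofReal_toReal (SliceMain_fin hL s)]
      _ = ENNReal.ofReal ((1 + c * M ^ (-(1 / (m : ℝ)))) * (volume (slc L s)).toReal) := by
          rw [ENNReal.ofReal_mul hq]
      _ ≤ ENNReal.ofReal (volume (slc K s)).toReal := ENNReal.ofReal_le_ofReal h4
      _ ≤ volume (slc K s) := ENNReal.ofReal_toReal_le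
  have hint : ENNReal.ofReal (1 + c * M ^ (-(1 / (m : ℝ)))) * volume L ≤ volume K := by
    rw [vol_slc hL.2.2.1.measurableSet, vol_slc hK.2.2.1.measurableSet,
      ← lintegral_const_mul' _ _ ENNReal.ofReal_ne_top]
    exact lintegral_mono key
  have hr := ENNReal.toReal_mono hKfin hint
  rw [ENNReal.toReal_mul, ENNReal.toReal_ofReal hq, ← hVdef] at hr
  have : c * (V * M ^ (-(1 / (m : ℝ)))) = (1 + c * M ^ (-(1 / (m : ℝ)))) * V - V := by ring
  rw [this]
  linarith

end BM939
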