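import Pool.Agent.Lib.MP_939ffc_anJ.Parallel
import Pool.Agent.Lib.MP_939ffc_anJ.SliceMain

/-! # MP_939ffc_an: long polyhedra have a large perimeter -/

open MeasureTheory Set Metric Filter Topology
open scoped ENNReal NNReal Pointwise
open Pool.Agent.Lib.MP_deb14e_an Pool.Agent.MPdeb14eM

namespace BM939

private theorem polyLong_inn_sub {n : ℕ} (S : Finset (E n)) {ε : ℝ} (hε : 0 < ε) :
    inn S ε ⊆ poly S := by
  intro x hx a ha
  have h1 := hx a ha
  have h2 : 0 ≤ ε * ‖a‖ := by positivity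
  linarith

private theorem polyLong_open {n : ℕ} (S : Finset (E n)) (ε : ℝ) : IsOpen (inn S ε) := by
  have e : inn S ε = ⋂ a ∈ S, {x : E n | (inner ℝ a x : ℝ) + ε * ‖a‖ < 1} := by
    ext x; simp [inn]
  rw [e]
  refine isOpen_biInter_finset fun a _ => ?_
  exact isOpen_lt (by fun_prop) continuous_const

private theorem polyLong_convex {n : ℕ} (S : Finset (E n)) (ε : ℝ) : Convex ℝ (inn S ε) := by
  intro x hx y hy s t hs ht hst a ha
  have h1 := hx a ha
  have h2 := hy a ha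
  rw [inner_add_right, inner_smul_right, inner_smul_right]
  have e : s * (inner ℝ a x : ℝ) + t * (inner ℝ a y : ℝ) + ε * ‖a‖ =
      s * ((inner ℝ a x : ℝ) + ε * ‖a‖) + t * ((inner ℝ a y : ℝ) + ε * ‖a‖) := by
    have : ε * ‖a‖ = (s + t) * (ε * ‖a‖) := by rw [hst, one_mul]
    linear_combination this
  rw [e]
  rcases hs.eq_or_lt with h0 | h0
  · have ht1 : t = 1 := by linarith
    rw [← h0, ht1]; linarith
  · have h3 : s * ((inner ℝ a x : ℝ) + ε * ‖a‖) < s * 1 := mul_lt_mul_of_pos_left h1 h0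
    have h4 : t * ((inner ℝ a y : ℝ) + ε * ‖a‖) ≤ t * 1 := mul_le_mul_of_nonneg_left h2.le ht
    linarith

private theorem polyLong_smul_mem {n : ℕ} {S : Finset (E n)} {ρ θ : ℝ} (hρ : ∀ a ∈ S, ρ * ‖a‖ ≤ 1)
    (hθ : 0 < θ) (hθ1 : θ < 1) {y : E n} (hy : y ∈ poly S) : θ • y ∈ inn S ((1 - θ) * ρ) := by
  intro a ha
  have h1 : (inner ℝ a y : ℝ) < 1 := hy a ha
  have h2 := hρ a ha
  rw [inner_smul_right]
  have h3 : θ * (inner ℝ a y : ℝ) < θ * 1 := mul_lt_mul_of_pos_left h1 hθ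
  have h4 : (1 - θ) * (ρ * ‖a‖) ≤ (1 - θ) * 1 := mul_le_mul_of_nonneg_left h2 (by linarith)
  have e : (1 - θ) * ρ * ‖a‖ = (1 - θ) * (ρ * ‖a‖) := by ring
  rw [e]; linarith

private theorem polyLong_ball {n : ℕ} {S : Finset (E n)} {ε : ℝ} {x : E n} (hx : x ∈ inn S ε) :
    ball x ε ⊆ poly S := by
  intro z hz a ha
  have h1 := hx a ha
  have h2 : ‖z - x‖ < ε := by simpa [dist_eq_norm] using hz
  have h3 : (inner ℝ a (z - x) : ℝ) ≤ ‖a‖ * ‖z - x‖ := real_inner_le_norm a (z - x)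
  have h4 : ‖a‖ * ‖z - x‖ ≤ ‖a‖ * ε := mul_le_mul_of_nonneg_left h2.le (norm_nonneg a)
  have e : (inner ℝ a z : ℝ) = inner ℝ a x + inner ℝ a (z - x) := by
    rw [← inner_add_right]; congr 1; abel
  rw [e]; linarith

/-- The power computation. -/
private theorem polyLong_pow {m : ℕ} (hm : 2 ≤ m) {c V D : ℝ} (hc : 0 ≤ c) (hV : 0 < V)
    (hD : 0 < D) : ((m : ℝ) * c ^ (1 / (m : ℝ)) * (V * (((m : ℝ) + 1) * V / D) ^ (-(1 / (m : ℝ))))) ^ m =
      (m : ℝ) ^ m * c * V ^ (m - 1) * D / (m + 1) := by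
  have hm0 : (m : ℝ) ≠ 0 := by
    have : m ≠ 0 := by omega
    exact_mod_cast this
  have hA : 0 < ((m : ℝ) + 1) * V / D := by positivity
  have e1 : (c ^ (1 / (m : ℝ))) ^ m = c := by
    rw [← Real.rpow_natCast, ← Real.rpow_mul hc, one_div_mul_cancel hm0, Real.rpow_one]
  have e2 : ((((m : ℝ) + 1) * V / D) ^ (-(1 / (m : ℝ)))) ^ m = (((m : ℝ) + 1) * V / D)⁻¹ := by
    rw [← Real.rpow_natCast, ← Real.rpow_mul hA.le]
    have : -(1 / (m : ℝ)) * (m : ℝ) = -1 := by field_simp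
    rw [this, Real.rpow_neg_one]
  rw [mul_pow, mul_pow, mul_pow, e1, e2]
  obtain ⟨k, rfl⟩ : ∃ k, m = k + 1 := ⟨m - 1, by omega⟩
  have h5 : ((((k + 1 : ℕ) : ℝ)) + 1) ≠ 0 := by positivity
  have h6 : V ^ (k + 1) = V ^ k * V := pow_succ V k
  rw [h6, Nat.add_sub_cancel]
  field_simp

/-- PROOF: for small `ε` (`ball 0 ρ ⊆ poly S`, `ρ = 1 / max ‖a‖`), `L = inn S ε ⊇ (1 - ε / ρ) • poly S`, `K = poly S`;
`slice_main` with the points `0`, `(1 - ε / ρ) • x` and `parallel`; let `ε → 0`. -/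
theorem poly_long {m : ℕ} (hm : 2 ≤ m) {S : Finset (E (m + 1))} (hb : Bornology.IsBounded (poly S))
    {x : E (m + 1)} (hx : x ∈ poly S) (hx0 : 0 < x 0) :
    (m : ℝ) ^ m * vb m * (volume (poly S)).toReal ^ (m - 1) * x 0 / (m + 1) ≤
      ((Measure.hausdorffMeasure (m : ℝ) (frontier (poly S))).toReal / kap m) ^ m := by
  have hK : ConvexDomain (poly S) := ⟨⟨0, zero_mem_poly S⟩, hb, isOpen_poly S, convex_poly S⟩
  have hP := frontier_lt_top hK
  have hKfin : volume (poly S) ≠ ⊤ := hb.measure_lt_top.ne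
  have hVpos : 0 < (volume (poly S)).toReal :=
    ENNReal.toReal_pos ((isOpen_poly S).measure_pos _ ⟨0, zero_mem_poly S⟩).ne' hKfin
  have hkap : 0 < kap m := kap_pos m
  set P : ℝ := (Measure.hausdorffMeasure (m : ℝ) (frontier (poly S))).toReal with hPdef
  set V : ℝ := (volume (poly S)).toReal with hVdef
  set ρ : ℝ := 1 / (1 + ∑ a ∈ S, ‖a‖) with hρdef
  have hsum : 0 ≤ ∑ a ∈ S, ‖a‖ := Finset.sum_nonneg fun a _ => norm_nonneg a
  have hρ0 : 0 < ρ := by positivity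
  have hρ : ∀ a ∈ S, ρ * ‖a‖ ≤ 1 := by
    intro a ha
    have h1 : ‖a‖ ≤ ∑ a ∈ S, ‖a‖ := Finset.single_le_sum (fun a _ => norm_nonneg a) ha
    rw [hρdef, one_div, inv_mul_le_iff₀ (by linarith)]
    linarith
  have key : ∀ θ : ℝ, 0 < θ → θ < 1 →
      (m : ℝ) ^ m * vb m * (θ ^ (m + 1) * V) ^ (m - 1) * (θ * x 0) / (m + 1) ≤ (P / kap m) ^ m := by
    intro θ hθ hθ1
    set ε : ℝ := (1 - θ) * ρ with hεdef
    have hε : 0 < ε := mul_pos (by linarith) hρ0
    have h0L : (0 : E (m + 1)) ∈ inn S ε := by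
      have := polyLong_smul_mem hρ hθ hθ1 (zero_mem_poly S)
      rwa [smul_zero] at this
    have hxL : θ • x ∈ inn S ε := polyLong_smul_mem hρ hθ hθ1 hx
    have hL : ConvexDomain (inn S ε) :=
      ⟨⟨0, h0L⟩, hb.subset (polyLong_inn_sub S hε), polyLong_open S ε, polyLong_convex S ε⟩
    have hLfin : volume (inn S ε) ≠ ⊤ := hL.2.1.measure_lt_top.ne
    have hD : 0 < (θ • x) 0 - (0 : E (m + 1)) 0 := by
      simp only [PiLp.smul_apply, PiLp.zero_apply, smul_eq_mul, sub_zero]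
      exact mul_pos hθ hx0
    have h1 := slice_main hm hK hL hε (fun y hy => polyLong_ball hy) h0L hxL hD
    have h2 := parallel S hε
    set W : ℝ := (volume (inn S ε)).toReal with hWdef
    have h3 : V - W ≤ ε / kap m * P := by
      have h4 : volume (poly S) ≤ volume (inn S ε) +
          ENNReal.ofReal (ε / kap m) * Measure.hausdorffMeasure (m : ℝ) (frontier (poly S)) := h2
      have h5 : ENNReal.ofReal (ε / kap m) *
          Measure.hausdorffMeasure (m : ℝ) (frontier (poly S)) ≠ ⊤ :=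
        ENNReal.mul_ne_top ENNReal.ofReal_ne_top hP.ne
      have h6 := ENNReal.toReal_mono (ENNReal.add_ne_top.2 ⟨hLfin, h5⟩) h4
      rw [ENNReal.toReal_add hLfin h5, ENNReal.toReal_mul,
        ENNReal.toReal_ofReal (by positivity)] at h6
      linarith
    have hWpos : 0 < W :=
      ENNReal.toReal_pos ((polyLong_open S ε).measure_pos _ ⟨0, h0L⟩).ne' hLfin
    have hWV : θ ^ (m + 1) * V ≤ W := by
      have h7 : θ • poly S ⊆ inn S ε := by
        rintro _ ⟨y, hy, rfl⟩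
        exact polyLong_smul_mem hρ hθ hθ1 hy
      have h8 := measure_mono (μ := volume) h7
      rw [Measure.addHaar_smul, finrank_euclideanSpace_fin, abs_of_pos (by positivity)] at h8
      have h9 := ENNReal.toReal_mono hLfin h8
      rwa [ENNReal.toReal_mul, ENNReal.toReal_ofReal (by positivity)] at h9
    have hDe : (θ • x) 0 - (0 : E (m + 1)) 0 = θ * x 0 := by
      simp
    rw [hDe] at h1
    have hD' : 0 < θ * x 0 := mul_pos hθ hx0
    have h10 : (m : ℝ) * vb m ^ (1 / (m : ℝ)) *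
        (W * (((m : ℝ) + 1) * W / (θ * x 0)) ^ (-(1 / (m : ℝ)))) ≤ P / kap m := by
      have h11 : ε * ((m : ℝ) * vb m ^ (1 / (m : ℝ)) *
        (W * (((m : ℝ) + 1) * W / (θ * x 0)) ^ (-(1 / (m : ℝ))))) ≤ ε * (P / kap m) := by
        calc ε * ((m : ℝ) * vb m ^ (1 / (m : ℝ)) *
              (W * (((m : ℝ) + 1) * W / (θ * x 0)) ^ (-(1 / (m : ℝ)))))
            = (m : ℝ) * ε * vb m ^ (1 / (m : ℝ)) *
              (W * (((m : ℝ) + 1) * W / (θ * x 0)) ^ (-(1 / (m : ℝ)))) := by ring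
          _ ≤ V - W := h1
          _ ≤ ε / kap m * P := h3
          _ = ε * (P / kap m) := by ring
      exact le_of_mul_le_mul_left h11 hε
    have hnn : 0 ≤ (m : ℝ) * vb m ^ (1 / (m : ℝ)) *
        (W * (((m : ℝ) + 1) * W / (θ * x 0)) ^ (-(1 / (m : ℝ)))) := by
      have := (vb_pos m).le
      positivity
    have h12 := pow_le_pow_left₀ hnn h10 m
    rw [polyLong_pow hm (vb_pos m).le hWpos hD'] at h12
    refine le_trans ?_ h12
    have hvb := (vb_pos m).le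
    gcongr
  have hlim : Tendsto (fun θ : ℝ => (m : ℝ) ^ m * vb m * (θ ^ (m + 1) * V) ^ (m - 1) * (θ * x 0) / (m + 1))
      (𝓝[<] 1) (𝓝 ((m : ℝ) ^ m * vb m * V ^ (m - 1) * x 0 / (m + 1))) := by
    have hc : Continuous fun θ : ℝ =>
        (m : ℝ) ^ m * vb m * (θ ^ (m + 1) * V) ^ (m - 1) * (θ * x 0) / (m + 1) := by
      fun_prop
    have h1 := (hc.tendsto 1).mono_left (nhdsWithin_le_nhds (s := Iio (1 : ℝ)))
    simpa using h1
  refine le_of_tendsto hlim ?_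
  have h13 : ∀ᶠ θ : ℝ in 𝓝[<] 1, 0 < θ :=
    nhdsWithin_le_nhds (lt_mem_nhds one_pos)
  filter_upwards [self_mem_nhdsWithin, h13] with θ hθ1 hθ
  exact key θ hθ hθ1

end BM939
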