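import Pool.Agent.Lib.MP_939ffc_anJ.DefsJ
import Pool.Agent.Lib.MP_939ffc_anD.PolyL
import Pool.Agent.Lib.MP_939ffc_anC.Cone1
import Pool.Agent.Lib.MP_939ffc_anC.Cone2
import Pool.Agent.Lib.MP_deb14e_anM.Hyper

/-! # MP_939ffc_an: the volume of a prism -/

open MeasureTheory Set Metric Filter Topology
open scoped ENNReal NNReal Pointwise
open Pool.Agent.Lib.MP_deb14e_an Pool.Agent.MPdeb14eM

namespace BM939

private theorem Prism_vol {m : ℕ} (a b : ℝ) {A : Set (E m)} (hA : MeasurableSet A) :
    volume {x : E (m + 1) | x 0 ∈ Icc a b ∧ tl x ∈ A} = ENNReal.ofReal (b - a) * volume A := by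
  have h0 : Measurable fun x : E (m + 1) => x 0 := (EuclideanSpace.proj (0 : Fin (m + 1)) :
    E (m + 1) →L[ℝ] ℝ).continuous.measurable
  have hQ : MeasurableSet {x : E (m + 1) | x 0 ∈ Icc a b ∧ tl x ∈ A} :=
    (h0 measurableSet_Icc).inter (continuous_tl.measurable hA)
  rw [← lintegral_indicator_one hQ,
    Pool.Agent.MPdeb14eM.lintegral_cons' (measurable_one.indicator hQ)]
  have key : ∀ z : ℝ, ∫⁻ w : E m, ({x : E (m + 1) | x 0 ∈ Icc a b ∧ tl x ∈ A}.indicator 1
      (cons z w) : ℝ≥0∞) = (Icc a b).indicator (fun _ => volume A) z := by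
    intro z
    by_cases hz : z ∈ Icc a b
    · rw [indicator_of_mem hz, ← lintegral_indicator_one hA]
      refine lintegral_congr fun w => ?_
      by_cases hw : w ∈ A
      · rw [indicator_of_mem hw, indicator_of_mem]
        · rfl
        · exact ⟨hz, by rwa [tl_cons]⟩
      · rw [indicator_of_notMem hw, indicator_of_notMem]
        rintro ⟨_, h2⟩
        rw [tl_cons] at h2
        exact hw h2
    · rw [indicator_of_notMem hz]
      have : ∀ w : E m, ({x : E (m + 1) | x 0 ∈ Icc a b ∧ tl x ∈ A}.indicator 1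
          (cons z w) : ℝ≥0∞) = 0 := fun w => indicator_of_notMem (fun h => hz h.1) _
      simp only [this, lintegral_zero]
  simp only [key]
  rw [lintegral_indicator measurableSet_Icc, lintegral_const, Measure.restrict_apply_univ,
    Real.volume_Icc, mul_comm]

/-- PROOF: rotate so that `u` is the first basis vector (as in Cone1-3.lean of MP_939ffc_anC for `cone_formula`); then
the prism is `{cons (h - s) y | cons h y ∈ F, s ∈ [0, ε]}`, of volume `ε * volume {y | cons h y ∈ F}`, and
`μH[m] F = kap m * volume {y | cons h y ∈ F}` (`hausdorff_eq`, `cons h` is an isometry). -/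
theorem prism {m : ℕ} {u : E (m + 1)} (hu : ‖u‖ = 1) {h ε : ℝ} (hε : 0 < ε) {F : Set (E (m + 1))}
    (hF : IsClosed F) (hFu : ∀ x ∈ F, (inner ℝ u x : ℝ) = h) :
    volume {z : E (m + 1) | ∃ p ∈ F, ∃ s ∈ Icc (0 : ℝ) ε, z = p - s • u} ≤
      ENNReal.ofReal (ε / kap m) * Measure.hausdorffMeasure (m : ℝ) F := by
  obtain ⟨e, he⟩ := exists_rot u hu
  have hc : Continuous fun w : E m => e.symm (cons h w) :=
    e.symm.continuous.comp (continuous_cons.comp (by fun_prop : Continuous fun w : E m => (h, w)))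
  set A : Set (E m) := {w | e.symm (cons h w) ∈ F} with hAdef
  have hA : MeasurableSet A := (hF.preimage hc).measurableSet
  have hcons : ∀ x ∈ F, cons h (tl (e x)) = e x := by
    intro x hx
    have h0 : (e x) 0 = h := by rw [he x]; exact hFu x hx
    have := cons_tl (e x)
    rwa [h0] at this
  have htlA : ∀ x ∈ F, tl (e x) ∈ A := by
    intro x hx
    show e.symm (cons h (tl (e x))) ∈ F
    rw [hcons x hx, LinearIsometryEquiv.symm_apply_apply]
    exact hx
  have hEF : e '' F = cons h '' A := by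
    ext y
    constructor
    · rintro ⟨x, hx, rfl⟩
      exact ⟨tl (e x), htlA x hx, hcons x hx⟩
    · rintro ⟨w, hw, rfl⟩
      exact ⟨e.symm (cons h w), hw, LinearIsometryEquiv.apply_symm_apply _ _⟩
  have huu : (inner ℝ u u : ℝ) = 1 := by rw [real_inner_self_eq_norm_sq, hu]; norm_num
  have hut : tl (e u) = 0 := by
    have h1 := norm_sq_eq (e u)
    rw [LinearIsometryEquiv.norm_map, hu, he u, huu] at h1
    have h2 : ‖tl (e u)‖ ^ 2 = 0 := by linarith
    exact norm_eq_zero.mp (pow_eq_zero_iff (by norm_num) |>.mp h2)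
  have hsub : {z : E (m + 1) | ∃ p ∈ F, ∃ s ∈ Icc (0 : ℝ) ε, z = p - s • u} ⊆
      e ⁻¹' {x : E (m + 1) | x 0 ∈ Icc (h - ε) h ∧ tl x ∈ A} := by
    rintro z ⟨p, hp, s, hs, rfl⟩
    refine ⟨?_, ?_⟩
    · rw [he, inner_sub_right, inner_smul_right, huu, hFu p hp]
      exact ⟨by linarith [hs.2], by linarith [hs.1]⟩
    · rw [map_sub, map_smul, tl_sub, tl_smul, hut, smul_zero, sub_zero]
      exact htlA p hp
  have h0 : Measurable fun x : E (m + 1) => x 0 := (EuclideanSpace.proj (0 : Fin (m + 1)) :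
    E (m + 1) →L[ℝ] ℝ).continuous.measurable
  have hQ : MeasurableSet {x : E (m + 1) | x 0 ∈ Icc (h - ε) h ∧ tl x ∈ A} :=
    (h0 measurableSet_Icc).inter (continuous_tl.measurable hA)
  refine (measure_mono hsub).trans ?_
  rw [(e.measurePreserving).measure_preimage hQ.nullMeasurableSet, Prism_vol _ _ hA]
  have hH : Measure.hausdorffMeasure (m : ℝ) F = ENNReal.ofReal (kap m) * volume A := by
    have h1 : Measure.hausdorffMeasure (m : ℝ) (e '' F) = Measure.hausdorffMeasure (m : ℝ) F :=
      e.isometry.hausdorffMeasure_image (Or.inl (Nat.cast_nonneg m)) F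
    rw [← h1, hEF]
    have h2 := lintegral_cons h hA (f := fun _ => 1) measurable_const
    rw [setLIntegral_one, setLIntegral_one] at h2
    exact h2
  rw [hH, ← mul_assoc, ← ENNReal.ofReal_mul (by positivity [kap_pos m])]
  rw [div_mul_cancel₀ _ (kap_pos m).ne']
  have h3 : h - (h - ε) = ε := by ring
  rw [h3]

end BM939
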