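import Pool.Agent.Lib.MP_939ffc_anJ.DefsJ

/-! # MP_939ffc_an: the volumes of the unit balls -/

open MeasureTheory Set Metric Filter Topology
open scoped ENNReal NNReal Pointwise
open Pool.Agent.Lib.MP_deb14e_an Pool.Agent.MPdeb14eM

namespace BM939

private theorem VbStep_norm {m : ℕ} (s : ℝ) (y : E m) : ‖cons s y‖ ^ 2 = s ^ 2 + ‖y‖ ^ 2 := by
  rw [EuclideanSpace.norm_sq_eq, EuclideanSpace.norm_sq_eq, Fin.sum_univ_succ]
  simp

/-- PROOF: the unit ball of `E (m + 1)` is contained in `{x | x 0 ∈ (-1, 1), tl x ∈ ball 0 1}` (Fubini), as in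
WidthA.lean, `vol_le_fibre` (folder MP_939ffc_anH) with `w = 2`. -/
theorem vb_step (m : ℕ) : vb (m + 1) ≤ 2 * vb m := by
  have hm : MeasurableSet (ball (0 : E (m + 1)) 1) := isOpen_ball.measurableSet
  have h1 : volume (ball (0 : E (m + 1)) 1) ≤ ENNReal.ofReal 2 * volume (ball (0 : E m) 1) := by
    rw [← (measurePreserving_cons (d := m)).measure_preimage hm.nullMeasurableSet]
    have hsub : (fun p : ℝ × E m => cons p.1 p.2) ⁻¹' (ball (0 : E (m + 1)) 1) ⊆
        (Ioo (-1 : ℝ) 1) ×ˢ (ball (0 : E m) 1) := by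
      rintro ⟨s, y⟩ hp
      have hp1 : ‖cons s y‖ < 1 := by
        have h2 := mem_preimage.1 hp
        rwa [mem_ball_zero_iff] at h2
      have h3 := VbStep_norm s y
      have h4 : ‖cons s y‖ ^ 2 < 1 := by
        have h5 := norm_nonneg (cons s y)
        nlinarith
      refine ⟨?_, ?_⟩
      · have h6 : s ^ 2 < 1 := by nlinarith [sq_nonneg ‖y‖]
        exact abs_lt.1 ((sq_lt_one_iff_abs_lt_one s).1 h6)
      · show y ∈ ball (0 : E m) 1
        rw [mem_ball_zero_iff]
        have h6 : ‖y‖ ^ 2 < 1 := by nlinarith [sq_nonneg s]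
        have h7 := (sq_lt_one_iff_abs_lt_one ‖y‖).1 h6
        rwa [abs_norm] at h7
    refine (measure_mono hsub).trans ?_
    rw [Measure.prod_prod, Real.volume_Ioo]
    norm_num
  have hfin : volume (ball (0 : E m) 1) ≠ ⊤ := measure_ball_lt_top.ne
  unfold vb
  have h8 := ENNReal.toReal_mono (ENNReal.mul_ne_top ENNReal.ofReal_ne_top hfin) h1
  rw [ENNReal.toReal_mul, ENNReal.toReal_ofReal (by norm_num)] at h8
  exact h8

end BM939
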