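import Pool.Agent.Lib.MP_939ffc_anJ.Long
import Pool.Agent.Lib.MP_939ffc_anJ.VbStep
import Pool.Agent.Lib.MP_939ffc_anJ.ExpJ

/-! # MP_939ffc_an: the sharp order of the circumradius -/

open MeasureTheory Set Metric Filter Topology
open scoped ENNReal NNReal Pointwise
open Pool.Agent.Lib.MP_deb14e_an Pool.Agent.MPdeb14eM

namespace BM939

private theorem radiusJ_arith {k : ℕ} {a b q t X : ℝ} (ha : 0 < a) (hb : 0 < b) (hq : 0 < q)
    (ht : 0 < t) (hab : a ≤ 2 * b) (he : (((k : ℝ) + 1 + 1) / (k + 1)) ^ (k + 1) ≤ 3)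
    (h : ((k : ℝ) + 1) ^ (k + 1) * b * (a * t ^ (k + 1 + 1)) ^ k * X / (k + 1 + 1) ≤
      (q * ((k + 1 + 1) * a * t ^ (k + 1))) ^ (k + 1)) :
    X ≤ 6 * ((k : ℝ) + 1 + 1) * q ^ (k + 1) * t := by
  have hk1 : (0 : ℝ) < (k : ℝ) + 1 := by positivity
  have hk2 : (0 : ℝ) < (k : ℝ) + 1 + 1 := by positivity
  rw [div_pow, div_le_iff₀ (by positivity)] at he
  have e1 : (q * ((k + 1 + 1) * a * t ^ (k + 1))) ^ (k + 1) =
      (a ^ k * (t ^ (k + 1 + 1)) ^ k) * (q ^ (k + 1) * ((k : ℝ) + 1 + 1) ^ (k + 1) * (a * t)) := by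
    have e2 : (t ^ (k + 1)) ^ (k + 1) = (t ^ (k + 1 + 1)) ^ k * t := by
      rw [← pow_mul, ← pow_mul, ← pow_succ]
      congr 1
      ring
    rw [mul_pow, mul_pow, mul_pow, e2, pow_succ a]
    ring
  have e3 : ((k : ℝ) + 1) ^ (k + 1) * b * (a * t ^ (k + 1 + 1)) ^ k * X / (k + 1 + 1) =
      (a ^ k * (t ^ (k + 1 + 1)) ^ k) * (((k : ℝ) + 1) ^ (k + 1) * b * X / (k + 1 + 1)) := by
    rw [mul_pow]
    ring
  rw [e1, e3] at h
  have h1 := le_of_mul_le_mul_left h (by positivity)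
  have h2 : q ^ (k + 1) * ((k : ℝ) + 1 + 1) ^ (k + 1) * (a * t) ≤
      q ^ (k + 1) * (3 * ((k : ℝ) + 1) ^ (k + 1)) * (2 * b * t) := by
    gcongr
  have h3 : ((k : ℝ) + 1) ^ (k + 1) * b * X / (k + 1 + 1) ≤
      (((k : ℝ) + 1) ^ (k + 1) * b / (k + 1 + 1)) * (6 * ((k : ℝ) + 1 + 1) * q ^ (k + 1) * t) := by
    refine (h1.trans h2).trans (le_of_eq ?_)
    field_simp
    ring
  have h4 : (((k : ℝ) + 1) ^ (k + 1) * b / (k + 1 + 1)) * X ≤
      (((k : ℝ) + 1) ^ (k + 1) * b / (k + 1 + 1)) * (6 * ((k : ℝ) + 1 + 1) * q ^ (k + 1) * t) := by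
    refine le_trans (le_of_eq ?_) h3
    ring
  exact le_of_mul_le_mul_left h4 (by positivity)

theorem radius_J {m : ℕ} (hm : 2 ≤ m) {Ω : Set (E (m + 1))} (hΩ : ConvexDomain Ω)
    (h0 : (0 : E (m + 1)) ∈ Ω) {t : ℝ} (ht : 0 < t) (hvol : volume (ball (0 : E (m + 1)) t) = volume Ω)
    {x₁ : E (m + 1)} (hx : x₁ ∈ Ω) :
    ‖x₁‖ ≤ 6 * ((m : ℝ) + 1) *
      (perimeter (m + 1) Ω / perimeter (m + 1) (ball (0 : E (m + 1)) t)) ^ m * t := by
  have hh : 0 < hausdorffConst (m : ℝ) := hausdorffConst_pos (Nat.cast_nonneg m)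
  have hk : 0 < kap m := kap_pos m
  have hv : 0 < vb (m + 1) := vb_pos (m + 1)
  have hP : 0 < perimeter (m + 1) Ω := perimeter_pos hΩ
  have hPB : 0 < perimeter (m + 1) (ball (0 : E (m + 1)) t) :=
    perimeter_pos ⟨⟨0, mem_ball_self ht⟩, isBounded_ball, isOpen_ball, convex_ball _ _⟩
  have hV : (volume Ω).toReal = vb (m + 1) * t ^ (m + 1) := by rw [← hvol]; exact vol_ball ht
  obtain ⟨q, hq⟩ : ∃ q, q = perimeter (m + 1) Ω / perimeter (m + 1) (ball (0 : E (m + 1)) t) :=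
    ⟨_, rfl⟩
  have hq0 : 0 < q := by rw [hq]; positivity
  have hPq : perimeter (m + 1) Ω / (hausdorffConst m * kap m) =
      q * ((m + 1) * vb (m + 1) * t ^ m) := by
    have h1 : perimeter (m + 1) Ω = q * (hausdorffConst m * kap m * (m + 1) * vb (m + 1) * t ^ m) := by
      rw [← perimeter_ball ht, hq, div_mul_cancel₀ _ hPB.ne']
    rw [h1]
    field_simp
  have hl := long hm hΩ h0 hx
  rw [hPq, hV] at hl
  rw [← hq]
  have he := exp_J (m := m) (by omega)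
  have hs := vb_step m
  have hvm : 0 < vb m := vb_pos m
  obtain ⟨k, rfl⟩ : ∃ k, m = k + 1 := ⟨m - 1, by omega⟩
  have e1 : k + 1 - 1 = k := by omega
  rw [e1] at hl
  push_cast at hl he ⊢
  exact radiusJ_arith hv hvm hq0 ht hs he hl

end BM939
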