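import Pool.Agent.Lib.MP_939ffc_anJ.DefsJ
import Pool.Agent.Lib.MP_deb14e_anM.BM

/-! # MP_939ffc_an: Brunn-Minkowski for slices -/

open MeasureTheory Set Metric Filter Topology
open scoped ENNReal NNReal Pointwise
open Pool.Agent.Lib.MP_deb14e_an Pool.Agent.MPdeb14eM

namespace BM939

private theorem bernJ {u v : ℝ} (hu : 0 ≤ u) (hv : 0 ≤ v) (k : ℕ) :
    u ^ (k + 1) + ((k : ℝ) + 1) * v * u ^ k ≤ (u + v) ^ (k + 1) := by
  induction k with
  | zero => simp
  | succ k ih =>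
    have h1 : (u + v) ^ (k + 1 + 1) = (u + v) * (u + v) ^ (k + 1) := by ring
    have h2 : (u + v) * (u ^ (k + 1) + ((k : ℝ) + 1) * v * u ^ k) ≤ (u + v) * (u + v) ^ (k + 1) :=
      mul_le_mul_of_nonneg_left ih (by positivity)
    have h3 : 0 ≤ ((k : ℝ) + 1) * v * v * u ^ k := by positivity
    rw [h1]
    push_cast
    refine le_trans ?_ h2
    have h4 : (u + v) * (u ^ (k + 1) + ((k : ℝ) + 1) * v * u ^ k) =
        u ^ (k + 1 + 1) + ((k : ℝ) + 1 + 1) * v * u ^ (k + 1) + ((k : ℝ) + 1) * v * v * u ^ k := by ring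
    rw [h4]
    linarith

/-- PROOF: if `slc L s` is empty both terms on the left are `0`. Otherwise `slc L s` and `ball 0 ε` are open, and
`brunn_minkowski` with `a = 1 / 2`, `A = 2 • slc L s`, `B = 2 • ball 0 ε`, `C = slc K s` gives
`|K_s|^(1/m) ≥ |L_s|^(1/m) + ε (vb m)^(1/m)`; take the `m`-th power, `(u + v)^m ≥ u^m + m v u^(m-1)`. -/
theorem slice_bm {m : ℕ} (hm : 2 ≤ m) {K L : Set (E (m + 1))} (hK : ConvexDomain K) (hL : ConvexDomain L)
    {ε : ℝ} (hε : 0 < ε) (h : ∀ x ∈ L, ball x ε ⊆ K) (s : ℝ) :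
    (volume (slc L s)).toReal + m * ε * vb m ^ (1 / (m : ℝ)) * (volume (slc L s)).toReal ^ (((m : ℝ) - 1) / m) ≤
      (volume (slc K s)).toReal := by
  have hm0 : (m : ℝ) ≠ 0 := by positivity
  have hm1 : (1 : ℝ) < m := by exact_mod_cast (by omega : 1 < m)
  have hcont : Continuous fun y : E m => cons s y :=
    continuous_cons.comp (continuous_const.prodMk continuous_id)
  have hopen : ∀ {M : Set (E (m + 1))}, IsOpen M → IsOpen (slc M s) := fun hM => hM.preimage hcont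
  have hfin : ∀ {M : Set (E (m + 1))}, Bornology.IsBounded M → volume (slc M s) ≠ ∞ := by
    intro M hM
    obtain ⟨R, hR⟩ := hM.subset_closedBall 0
    refine ne_top_of_le_ne_top (measure_closedBall_lt_top (x := (0 : E m)) (r := R)).ne (measure_mono ?_)
    intro y hy
    have h1 := hR (show cons s y ∈ M from hy)
    rw [mem_closedBall_zero_iff] at h1 ⊢
    refine le_trans ?_ h1
    have h2 := norm_cons_sq s y
    have h3 : ‖y‖ ^ 2 ≤ ‖cons s y‖ ^ 2 := by rw [h2]; nlinarith [sq_nonneg s]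
    exact le_of_sq_le_sq h3 (norm_nonneg _)
  rcases eq_or_ne (volume (slc L s)) 0 with h0 | h0
  · rw [h0]
    have h1 : ((m : ℝ) - 1) / m ≠ 0 := div_ne_zero (by linarith) hm0
    simp [Real.zero_rpow h1]
  have hLf := hfin hL.2.1
  have hKf := hfin hK.2.1
  have h2 : (2 : ℝ) ≠ 0 := two_ne_zero
  have hfr : Module.finrank ℝ (E m) = m := by simp
  have hvA : volume ((2 : ℝ) • slc L s) = ENNReal.ofReal ((2 : ℝ) ^ m) * volume (slc L s) := by
    rw [Measure.addHaar_smul, hfr, abs_of_pos (by positivity)]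
  have hvB : volume ((2 : ℝ) • ball (0 : E m) ε) = ENNReal.ofReal ((2 : ℝ) ^ m) * volume (ball (0 : E m) ε) := by
    rw [Measure.addHaar_smul, hfr, abs_of_pos (by positivity)]
  have hvb : (volume (ball (0 : E m) ε)).toReal = ε ^ m * vb m := by
    rw [Measure.addHaar_ball_of_pos _ _ hε, hfr, ENNReal.toReal_mul, ENNReal.toReal_ofReal (by positivity)]
    rfl
  have hp2 : (0 : ℝ) < 2 ^ m := by positivity
  have hbm := brunn_minkowski (d := m) (by omega) (A := (2 : ℝ) • slc L s) (B := (2 : ℝ) • ball (0 : E m) ε)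
    (C := slc K s) ((hopen hL.2.2.1).smul₀ h2).measurableSet (isOpen_ball.smul₀ h2).measurableSet
    (hopen hK.2.2.1).measurableSet
    (by rw [hvA]; exact mul_ne_zero (by simp) h0)
    (by rw [hvB]; exact mul_ne_zero (by simp) (measure_ball_pos _ _ hε).ne')
    (by rw [hvA]; exact ENNReal.mul_ne_top ENNReal.ofReal_ne_top hLf)
    (by rw [hvB]; exact ENNReal.mul_ne_top ENNReal.ofReal_ne_top measure_ball_lt_top.ne)
    hKf (a := 1 / 2) (by norm_num) (by norm_num) (by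
      rintro _ ⟨x, hx, rfl⟩ _ ⟨y, hy, rfl⟩
      have hx' : cons s x ∈ L := hx
      have hy' : ‖y‖ < ε := by simpa using hy
      have h3 : (1 - 1 / 2 : ℝ) • ((2 : ℝ) • x) + (1 / 2 : ℝ) • ((2 : ℝ) • y) = x + y := by
        rw [smul_smul, smul_smul]; norm_num
      show cons s ((1 - 1 / 2 : ℝ) • ((2 : ℝ) • x) + (1 / 2 : ℝ) • ((2 : ℝ) • y)) ∈ K
      rw [h3]
      refine h _ hx' ?_
      rw [mem_ball, dist_eq_norm]
      have h4 : cons s (x + y) - cons s x = cons 0 y := by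
        have := cons_add s 0 x y
        rw [add_zero] at this
        rw [this, add_sub_cancel_left]
      rw [h4]
      have h5 := norm_cons_sq 0 y
      have h6 : ‖cons 0 y‖ ^ 2 ≤ ‖y‖ ^ 2 := by rw [h5]; simp
      exact (le_of_sq_le_sq h6 (norm_nonneg _)).trans_lt hy')
  set VA : ℝ := (volume (slc L s)).toReal with hVA
  set VK : ℝ := (volume (slc K s)).toReal with hVK
  have hVA0 : 0 ≤ VA := ENNReal.toReal_nonneg
  have hVK0 : 0 ≤ VK := ENNReal.toReal_nonneg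
  have hvb0 : 0 ≤ vb m := ENNReal.toReal_nonneg
  have e1 : (volume ((2 : ℝ) • slc L s)).toReal ^ (1 / (m : ℝ)) = 2 * VA ^ (1 / (m : ℝ)) := by
    rw [hvA, ENNReal.toReal_mul, ENNReal.toReal_ofReal hp2.le, Real.mul_rpow hp2.le hVA0,
      ← Real.rpow_natCast, ← Real.rpow_mul (by norm_num), mul_one_div_cancel hm0, Real.rpow_one]
  have e2 : (volume ((2 : ℝ) • ball (0 : E m) ε)).toReal ^ (1 / (m : ℝ)) = 2 * (ε * vb m ^ (1 / (m : ℝ))) := by
    rw [hvB, ENNReal.toReal_mul, ENNReal.toReal_ofReal hp2.le, hvb, Real.mul_rpow hp2.le (by positivity),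
      Real.mul_rpow (by positivity) hvb0,
      ← Real.rpow_natCast, ← Real.rpow_mul (by norm_num), mul_one_div_cancel hm0, Real.rpow_one,
      ← Real.rpow_natCast, ← Real.rpow_mul hε.le, mul_one_div_cancel hm0, Real.rpow_one]
  rw [e1, e2] at hbm
  set α : ℝ := VA ^ (1 / (m : ℝ)) with hα
  set β : ℝ := vb m ^ (1 / (m : ℝ)) with hβ
  set γ : ℝ := VK ^ (1 / (m : ℝ)) with hγ
  have hα0 : 0 ≤ α := Real.rpow_nonneg hVA0 _
  have hβ0 : 0 ≤ β := Real.rpow_nonneg hvb0 _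
  have h5 : α + ε * β ≤ γ := by linarith
  have hαm : α ^ m = VA := by
    rw [hα, ← Real.rpow_natCast, ← Real.rpow_mul hVA0, one_div_mul_cancel hm0, Real.rpow_one]
  have hγm : γ ^ m = VK := by
    rw [hγ, ← Real.rpow_natCast, ← Real.rpow_mul hVK0, one_div_mul_cancel hm0, Real.rpow_one]
  obtain ⟨k, rfl⟩ : ∃ k, m = k + 1 := ⟨m - 1, by omega⟩
  have hαk : VA ^ ((((k + 1 : ℕ) : ℝ) - 1) / ((k + 1 : ℕ) : ℝ)) = α ^ k := by
    rw [hα, ← Real.rpow_natCast (VA ^ _) k, ← Real.rpow_mul hVA0]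
    congr 1
    push_cast
    ring
  rw [hαk, ← hγm]
  have h6 := bernJ hα0 (mul_nonneg hε.le hβ0) k
  have h7 : (α + ε * β) ^ (k + 1) ≤ γ ^ (k + 1) := pow_le_pow_left₀ (by positivity) h5 _
  rw [hαm] at h6
  push_cast
  calc VA + ((k : ℝ) + 1) * ε * β * α ^ k = VA + ((k : ℝ) + 1) * (ε * β) * α ^ k := by ring
    _ ≤ _ := h6
    _ ≤ _ := h7

end BM939
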